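import Pool.Agent.EDG.Stmts

/-!
# EDG, row INV
-/

set_option autoImplicit false

namespace Pool.Agent.EDG.H74

open Polynomial Finset

theorem dvd_ev_of_dvd {g a b : ℤ[X]} (h : g ∣ a - b) (ψ : ℤ[X][X])
    (h1 : g ∣ ev (X : ℤ[X]) a ψ) : g ∣ ev (X : ℤ[X]) b ψ := by
  have h2 : ∀ c : ℤ[X], ev (X : ℤ[X]) c ψ = ψ.eval c := by
    intro c
    have h3 : eval₂RingHom (Int.castRingHom ℤ[X]) (X : ℤ[X]) = RingHom.id _ := by
      apply Polynomial.ringHom_ext'
      · exact RingHom.ext_int _ _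
      · simp
    rw [ev, h3]
    rfl
  rw [h2] at h1 ⊢
  have h4 : a - b ∣ ψ.eval a - ψ.eval b := sub_dvd_eval_sub a b ψ
  have h5 := h.trans h4
  have h6 := dvd_sub h1 h5
  rwa [sub_sub_cancel] at h6

theorem inv : InvStmt := by
  intro n g hg m Θ Ψ hΘ hΨ hdvd hm huniq
  classical
  have hp : Prime Ψ := hΨ.prime
  obtain ⟨f, hf, hfΘ⟩ := UniqueFactorizationMonoid.exists_prime_factors Θ hΘ
  obtain ⟨u, hu⟩ := hfΘ
  have h1 : Θ.comp F = (f.map (compRingHom F)).prod * (compRingHom F (u : ℤ[X][X])) := by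
    rw [← hu, ← coe_compRingHom_apply, map_mul, map_multiset_prod]
  have hunit : IsUnit (compRingHom F (u : ℤ[X][X])) := u.isUnit.map _
  have h2 : Ψ ∣ (f.map (compRingHom F)).prod := by
    rw [h1] at hdvd
    exact (hunit.dvd_mul_right).1 hdvd
  obtain ⟨a, ha, hΨa⟩ := hp.exists_mem_multiset_dvd h2
  obtain ⟨ψ, hψ, rfl⟩ := Multiset.mem_map.1 ha
  rw [coe_compRingHom_apply] at hΨa
  have hψΘ : ψ ∣ Θ := by
    rw [← hu]
    exact (Multiset.dvd_prod hψ).mul_right _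
  have hψirr : Irreducible ψ := (hf ψ hψ).irreducible
  have hn := hg.npos
  -- the shift
  have hcard : (Vn n g Ψ).card ≤ (Vn n g ψ).card := by
    refine Finset.card_le_card_of_injOn (fun i => (i + 1) % n) ?_ ?_
    · intro i hi
      rw [Finset.mem_coe, mem_Vn] at hi
      rw [Finset.mem_coe, mem_Vn]
      refine ⟨Nat.mod_lt _ hn, ?_⟩
      obtain ⟨c, hc⟩ := hΨa
      have h3 : g ∣ ev (X : ℤ[X]) (Yp (i + 1)) ψ := by
        rw [← ev_comp_F_Yp, hc, map_mul]
        exact hi.2.mul_right _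
      show g ∣ ev (X : ℤ[X]) (Yp ((i + 1) % n)) ψ
      rcases Nat.lt_or_ge (i + 1) n with h4 | h4
      · rw [Nat.mod_eq_of_lt h4]
        exact h3
      · have h5 : i + 1 = n := by omega
        rw [h5, Nat.mod_self]
        rw [h5] at h3
        exact dvd_ev_of_dvd hg.per ψ h3
    · intro i hi j hj hij
      rw [Finset.mem_coe, mem_Vn] at hi hj
      have hij' : (i + 1) % n = (j + 1) % n := hij
      have h3 : i % n = j % n := Nat.ModEq.add_right_cancel' 1 hij'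
      rwa [Nat.mod_eq_of_lt hi.1, Nat.mod_eq_of_lt hj.1] at h3
  obtain ⟨v, hv⟩ := huniq ψ hψirr hψΘ (hm.trans hcard)
  -- `Ψ = ψ * v`
  have h3 : Ψ.comp F = ψ.comp F * (compRingHom F (v : ℤ[X][X])) := by
    rw [← hv, ← coe_compRingHom_apply, map_mul, coe_compRingHom_apply]
  rw [h3]
  exact hΨa.mul_right _

end Pool.Agent.EDG.H74
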