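import Pool.Agent.EDG.Stmts

/-!
# EDG, row PER
-/

set_option autoImplicit false

namespace Pool.Agent.EDG.H74

open Polynomial Finset

/-- evaluation at `X = algebraMap X` is the usual evaluation. -/
theorem ev_alg {K : Type*} [CommRing K] [Algebra ℤ[X] K] (ρ : K) (p : ℤ[X][X]) :
    ev (algebraMap ℤ[X] K X) ρ p = aeval ρ p := by
  have h1 : eval₂RingHom (Int.castRingHom K) (algebraMap ℤ[X] K X) = algebraMap ℤ[X] K := by
    apply Polynomial.ringHom_ext'
    · exact RingHom.ext_int _ _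
    · simp
  rw [ev, h1]
  rfl

theorem per : PerStmt := by
  intro Ψ hΨ hdeg hdvd
  classical
  let K := AlgebraicClosure (FractionRing ℤ[X])
  let _ : Algebra ℤ[X] K := inferInstance
  have hinj : Function.Injective (algebraMap ℤ[X] K) := by
    have h1 : Function.Injective (algebraMap ℤ[X] (FractionRing ℤ[X])) :=
      IsFractionRing.injective _ _
    have h2 : Function.Injective (algebraMap (FractionRing ℤ[X]) K) :=
      (algebraMap (FractionRing ℤ[X]) K).injective
    rw [IsScalarTower.algebraMap_eq ℤ[X] (FractionRing ℤ[X]) K]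
    exact h2.comp h1
  obtain ⟨b, hb⟩ : ∃ b : K, b = algebraMap ℤ[X] K X := ⟨_, rfl⟩
  have hev : ∀ (ρ : K) (q : ℤ[X][X]), ev b ρ q = aeval ρ q := by
    intro ρ q
    rw [hb]
    exact ev_alg ρ q
  have hmap0 : Ψ.map (algebraMap ℤ[X] K) ≠ 0 := by
    rw [Ne, Polynomial.map_eq_zero_iff hinj]
    exact hΨ.ne_zero
  have hmapdeg : (Ψ.map (algebraMap ℤ[X] K)).natDegree = Ψ.natDegree :=
    natDegree_map_eq_of_injective hinj _
  obtain ⟨ρ₀, hρ₀⟩ := IsAlgClosed.exists_root (Ψ.map (algebraMap ℤ[X] K)) (by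
    rw [Ne, degree_eq_natDegree hmap0, hmapdeg]
    exact_mod_cast (by omega : Ψ.natDegree ≠ 0))
  rw [IsRoot.def, eval_map_algebraMap] at hρ₀
  -- the map on the roots
  have hstep : ∀ ρ : K, aeval ρ Ψ = 0 → aeval (ρ ^ 2 + 2 * b * ρ) Ψ = 0 := by
    intro ρ hρ
    obtain ⟨q, hq⟩ := hdvd
    rw [← hev, ← ev_comp_F, hq, map_mul, hev, hρ, zero_mul]
  have horb : ∀ i, aeval (it b ρ₀ i) Ψ = 0 := by
    intro i
    induction i with
    | zero => exact hρ₀
    | succ i ih => rw [it_succ]; exact hstep _ ih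
  have hmem : ∀ i, it b ρ₀ i ∈ (Ψ.map (algebraMap ℤ[X] K)).roots.toFinset := by
    intro i
    rw [Multiset.mem_toFinset, mem_roots hmap0, IsRoot.def, eval_map_algebraMap]
    exact horb i
  obtain ⟨i, j, hij, hEq⟩ : ∃ i j, i < j ∧ it b ρ₀ i = it b ρ₀ j := by
    by_contra hcon
    push Not at hcon
    have hinj2 : Function.Injective (fun i : ℕ => (⟨it b ρ₀ i, hmem i⟩ :
        {x // x ∈ (Ψ.map (algebraMap ℤ[X] K)).roots.toFinset})) := by
      intro i j hh
      have h1 : it b ρ₀ i = it b ρ₀ j := congrArg Subtype.val hh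
      rcases lt_trichotomy i j with h2 | h2 | h2
      · exact absurd h1 (hcon i j h2)
      · exact h2
      · exact absurd h1.symm (hcon j i h2)
    exact not_injective_infinite_finite _ hinj2
  obtain ⟨ρ, hρ⟩ : ∃ ρ : K, ρ = it b ρ₀ i := ⟨_, rfl⟩
  obtain ⟨p, hp⟩ : ∃ p, p = j - i := ⟨_, rfl⟩
  have hp0 : 0 < p := by omega
  have hper : it b ρ p = ρ := by
    rw [hρ, ← it_add, show i + p = j by omega, ← hEq]
  have hroot : aeval ρ (Fit p - X) = 0 := by
    rw [← hev, map_sub, ev_Fit, ev_X, hper, sub_self]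
  have hrootΨ : aeval ρ Ψ = 0 := by
    rw [hρ]
    exact horb i
  refine ⟨p, hp0, ?_⟩
  have hprim : Ψ.IsPrimitive := hΨ.isPrimitive (by omega)
  have hirr : Irreducible (Ψ.map (algebraMap ℤ[X] (FractionRing ℤ[X]))) :=
    (hprim.irreducible_iff_irreducible_map_fraction_map (K := FractionRing ℤ[X])).1 hΨ
  rw [hprim.dvd_iff_fraction_map_dvd_fraction_map (FractionRing ℤ[X])]
  have h1 : aeval ρ (Ψ.map (algebraMap ℤ[X] (FractionRing ℤ[X]))) = 0 := by
    rw [aeval_map_algebraMap]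
    exact hrootΨ
  have h2 : aeval ρ ((Fit p - X).map (algebraMap ℤ[X] (FractionRing ℤ[X]))) = 0 := by
    rw [aeval_map_algebraMap]
    exact hroot
  have h3 : minpoly (FractionRing ℤ[X]) ρ ∣ Ψ.map (algebraMap ℤ[X] (FractionRing ℤ[X])) :=
    minpoly.dvd _ _ h1
  have h4 : minpoly (FractionRing ℤ[X]) ρ ∣
      (Fit p - X).map (algebraMap ℤ[X] (FractionRing ℤ[X])) := minpoly.dvd _ _ h2
  have hint : IsIntegral (FractionRing ℤ[X]) ρ :=
    (Algebra.IsAlgebraic.isAlgebraic (R := FractionRing ℤ[X]) ρ).isIntegral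
  have h5 : Associated (minpoly (FractionRing ℤ[X]) ρ)
      (Ψ.map (algebraMap ℤ[X] (FractionRing ℤ[X]))) :=
    (minpoly.irreducible hint).associated_of_dvd hirr h3
  exact h5.symm.dvd.trans h4

end Pool.Agent.EDG.H74
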