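import Pool.Agent.EDG.Stmts

/-!
# EDG, row SZE
-/

set_option autoImplicit false

namespace Pool.Agent.EDG.H74

open Polynomial Finset

theorem sum_range_two_mul (f : ℕ → ℝ) (n : ℕ) :
    ∑ e ∈ range (2 * n), f e = ∑ k ∈ range n, (f (2 * k) + f (2 * k + 1)) := by
  induction n with
  | zero => simp
  | succ n ih =>
    rw [show 2 * (n + 1) = 2 * n + 1 + 1 by ring, sum_range_succ, sum_range_succ, ih,
      sum_range_succ]
    ring

theorem sum_h {b : ℂ} (hb : ∀ i, ‖it b (-b) i‖ ≤ 4) (η : ℕ) : ∀ i : ℕ,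
    ∑ e ∈ range (2 ^ η), ‖ev b (it b (-b) i) (h e)‖ ≤ 5 ^ η := by
  induction η with
  | zero => intro i; simp [h_zero]
  | succ η ih =>
    intro i
    rw [pow_succ, mul_comm, sum_range_two_mul]
    have h1 : ∀ k, ‖ev b (it b (-b) i) (h (2 * k))‖ + ‖ev b (it b (-b) i) (h (2 * k + 1))‖ ≤
        5 * ‖ev b (it b (-b) (i + 1)) (h k)‖ := by
      intro k
      rw [h_two_mul, h_two_mul_add_one, map_mul, ev_comp_F, ev_X, ← it_succ, norm_mul]
      have h2 := hb i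
      have h3 := norm_nonneg (ev b (it b (-b) (i + 1)) (h k))
      nlinarith
    calc ∑ k ∈ range (2 ^ η), (‖ev b (it b (-b) i) (h (2 * k))‖ +
          ‖ev b (it b (-b) i) (h (2 * k + 1))‖)
        ≤ ∑ k ∈ range (2 ^ η), 5 * ‖ev b (it b (-b) (i + 1)) (h k)‖ :=
          sum_le_sum fun k _ => h1 k
      _ = 5 * ∑ k ∈ range (2 ^ η), ‖ev b (it b (-b) (i + 1)) (h k)‖ := by rw [mul_sum]
      _ ≤ 5 * 5 ^ η := by
          have := ih (i + 1)
          linarith
      _ = 5 ^ (η + 1) := by ring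

theorem sum_h_le {b : ℂ} (hb : ∀ i, ‖it b (-b) i‖ ≤ 4) {N η : ℕ} (hN : N ≤ 2 ^ η) (i : ℕ) :
    ∑ e ∈ range N, ‖ev b (it b (-b) i) (h e)‖ ≤ 5 ^ η :=
  (sum_le_sum_of_subset_of_nonneg (range_subset_range.2 hN) fun _ _ _ => norm_nonneg _).trans
    (sum_h hb η i)

theorem sze : SzeStmt := by
  intro b hb m E μ η hm hE a K hK i
  have hK0 : 0 ≤ K := by
    have h1 := hK 0 0
    have h2 := abs_nonneg (a 0 0 : ℝ)
    simp only [pow_zero, one_mul] at h1
    linarith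
  have hQ : ∀ j, aeval b (Q j) = ev b (it b (-b) 0) (h j) := by
    intro j
    rw [Q, aeval_ev, it_zero]
    simp
  have h1 : ev b (it b (-b) i) (Tha m E a) = ∑ j ∈ range m, ∑ e ∈ range E,
      ((2 ^ j * a j e : ℤ) : ℂ) * ev b (it b (-b) 0) (h j) * ev b (it b (-b) i) (h e) := by
    rw [Tha, map_sum]
    refine sum_congr rfl fun j _ => ?_
    rw [map_sum]
    refine sum_congr rfl fun e _ => ?_
    rw [map_mul, ev_C, map_mul, hQ, aeval_C]
    rfl
  rw [h1]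
  have h2 : ∀ j e, ‖((2 ^ j * a j e : ℤ) : ℂ) * ev b (it b (-b) 0) (h j) *
      ev b (it b (-b) i) (h e)‖ ≤ K * (‖ev b (it b (-b) 0) (h j)‖ *
        ‖ev b (it b (-b) i) (h e)‖) := by
    intro j e
    rw [norm_mul, norm_mul, mul_assoc]
    refine mul_le_mul_of_nonneg_right ?_ (mul_nonneg (norm_nonneg _) (norm_nonneg _))
    have h3 : ‖((2 ^ j * a j e : ℤ) : ℂ)‖ = 2 ^ j * |(a j e : ℝ)| := by
      push_cast
      rw [norm_mul, norm_pow, Complex.norm_ofNat, Complex.norm_intCast]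
    rw [h3]
    exact hK j e
  calc ‖∑ j ∈ range m, ∑ e ∈ range E, ((2 ^ j * a j e : ℤ) : ℂ) *
        ev b (it b (-b) 0) (h j) * ev b (it b (-b) i) (h e)‖
      ≤ ∑ j ∈ range m, ∑ e ∈ range E, K * (‖ev b (it b (-b) 0) (h j)‖ *
        ‖ev b (it b (-b) i) (h e)‖) :=
        (norm_sum_le _ _).trans (sum_le_sum fun j _ => (norm_sum_le _ _).trans
          (sum_le_sum fun e _ => h2 j e))
    _ = K * ((∑ j ∈ range m, ‖ev b (it b (-b) 0) (h j)‖) *
        ∑ e ∈ range E, ‖ev b (it b (-b) i) (h e)‖) := by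
        rw [sum_mul_sum, mul_sum]
        refine sum_congr rfl fun j _ => ?_
        rw [mul_sum]
    _ ≤ K * (5 ^ μ * 5 ^ η) := by
        refine mul_le_mul_of_nonneg_left ?_ hK0
        exact mul_le_mul (sum_h_le hb hm 0) (sum_h_le hb hE i)
          (sum_nonneg fun _ _ => norm_nonneg _) (by positivity)
    _ = K * 5 ^ (μ + η) := by rw [pow_add]

end Pool.Agent.EDG.H74
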